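import Mathlib

namespace Pool.Agent.Results.MP_091941_lc.NotInv

/-- an interpretation: a set of recursive functions and predicates -/
structure Interp where
  fns : Set (Σ n : ℕ, (Fin n → ℕ) → ℕ)
  prs : Set (Σ n : ℕ, (Fin n → ℕ) → Bool)
  fns_rec : ∀ f ∈ fns, Computable f.2
  prs_rec : ∀ p ∈ prs, Computable p.2

/-- node labels; program variables are indexed by naturals -/
inductive Node (N : Type)
  | start (next : N)
  | op (n : ℕ) (f : (Fin n → ℕ) → ℕ) (args : Fin n → ℕ) (tgt : ℕ) (next : N)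
  | test (n : ℕ) (p : (Fin n → ℕ) → Bool) (args : Fin n → ℕ) (yes no : N)
  | halt (out : ℕ)

structure Flow (F : Interp) where
  N : Type
  fin : Finite N
  lab : N → Node N
  s : N
  s_start : ∀ v, (∃ w, lab v = .start w) ↔ v = s
  op_mem : ∀ v n f a t w, lab v = .op n f a t w → ⟨n, f⟩ ∈ F.fns
  test_mem : ∀ v n p a w w', lab v = .test n p a w w' → ⟨n, p⟩ ∈ F.prs

/-- `Run v ρ k y`: from node `v` with store `ρ`, halt after `k` node executions with output `y` -/
inductive Flow.Run {F : Interp} (C : Flow F) : C.N → (ℕ → ℕ) → ℕ → ℕ → Prop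
  | halt {v o ρ} : C.lab v = .halt o → C.Run v ρ 1 (ρ o)
  | start {v w ρ k y} : C.lab v = .start w → C.Run w ρ k y → C.Run v ρ (k + 1) y
  | op {v n f a t w ρ k y} : C.lab v = .op n f a t w →
      C.Run w (Function.update ρ t (f fun i => ρ (a i))) k y → C.Run v ρ (k + 1) y
  | test {v n p a w w' ρ k y} : C.lab v = .test n p a w w' →
      C.Run (if p (fun i => ρ (a i)) = true then w else w') ρ k y → C.Run v ρ (k + 1) y

/-- the input sits in variable `0`, all other variables are `0` -/
def init (x : ℕ) : ℕ → ℕ := fun i => if i = 0 then x else 0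

def Universal (F : Interp) : Prop :=
  ∀ φ : ℕ →. ℕ, Nat.Partrec φ → ∃ C : Flow F, ∀ x y, (∃ k, C.Run C.s (init x) k y) ↔ y ∈ φ x

/-- the complexity class of `t` in the flowchart measure of `F` -/
def Cls (F : Interp) (t : ℕ → ℕ) : Set (ℕ → ℕ) :=
  {f | ∃ C : Flow F, (∀ x, ∃ k, C.Run C.s (init x) k (f x)) ∧
    ∀ᶠ x in Filter.cofinite, ∃ k y, k ≤ t x ∧ C.Run C.s (init x) k y}

open Nat.Partrec (Code)
open Nat.Partrec.Code

def ev (a : Fin 3 → ℕ) : Option ℕ := evaln (a 0) (Denumerable.ofNat Code (a 1)) (a 2)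

theorem ev_prim : Primrec ev := by
  have h : ∀ i : Fin 3, Primrec fun a : Fin 3 → ℕ => a i := fun i =>
    Primrec.fin_app.comp Primrec.id (Primrec.const i)
  exact primrec_evaln.comp (((h 0).pair ((Primrec.ofNat Code).comp (h 1))).pair (h 2))

def sc (a : Fin 1 → ℕ) : ℕ := a 0 + 1
def U (a : Fin 3 → ℕ) : ℕ := (ev a).getD 0
def P (a : Fin 3 → ℕ) : Bool := (ev a).isSome

def F0 : Interp where
  fns := {⟨1, sc⟩, ⟨3, U⟩}
  prs := {⟨3, P⟩}
  fns_rec := by
    rintro f (rfl | rfl)
    · exact (Primrec.succ.comp (Primrec.fin_app.comp Primrec.id (Primrec.const 0))).to_comp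
    · exact (Primrec.option_getD.comp ev_prim (Primrec.const 0)).to_comp
  prs_rec := by
    rintro f rfl
    exact (Primrec.option_isSome.comp ev_prim).to_comp

def lab (e : ℕ) : Fin (e + 1) ⊕ Fin 4 → Node (Fin (e + 1) ⊕ Fin 4)
  | .inl i => if h : i.val < e then .op 1 sc ![1] 1 (.inl ⟨i.val + 1, by omega⟩)
      else .test 3 P ![2, 1, 0] (.inr 2) (.inr 1)
  | .inr 0 => .start (.inl 0)
  | .inr 1 => .op 1 sc ![2] 2 (.inl (Fin.last e))
  | .inr 2 => .op 3 U ![2, 1, 0] 3 (.inr 3)
  | .inr 3 => .halt 3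

@[reducible] def CU (e : ℕ) : Flow F0 where
  N := Fin (e + 1) ⊕ Fin 4
  fin := inferInstance
  lab := lab e
  s := Sum.inr 0
  s_start := by
    rintro (i | i)
    · simp only [lab]; split_ifs <;> simp
    · fin_cases i <;> simp [lab]
  op_mem := by
    rintro (i | i) n f a t w h
    · simp only [lab] at h
      split_ifs at h
      cases h
      exact Or.inl rfl
    · fin_cases i <;> simp only [lab] at h <;> cases h
      · exact Or.inl rfl
      · exact Or.inr rfl
  test_mem := by
    rintro (i | i) n f a t w h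
    · simp only [lab] at h
      split_ifs at h
      cases h
      rfl
    · fin_cases i <;> simp only [lab] at h <;> cases h

def Inv (c : Code) (x : ℕ) (e : ℕ) : Fin (e + 1) ⊕ Fin 4 → (ℕ → ℕ) → Prop
  | .inl i, ρ => ρ 0 = x ∧ ρ 1 = i.val
  | .inr 0, ρ => ρ 0 = x ∧ ρ 1 = 0
  | .inr 1, ρ => ρ 0 = x ∧ ρ 1 = e
  | .inr 2, ρ => ρ 0 = x ∧ ρ 1 = e ∧ (evaln (ρ 2) c x).isSome = true
  | .inr 3, ρ => ρ 3 ∈ c.eval x

theorem sound (c : Code) (x : ℕ) {v ρ k y} (h : (CU (Encodable.encode c)).Run v ρ k y) :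
    Inv c x _ v ρ → y ∈ c.eval x := by
  induction h with
  | @halt v o ρ h =>
    intro hi
    rcases v with i | i
    · simp only [CU, lab] at h; split_ifs at h
    · fin_cases i <;> simp only [CU, lab] at h <;> cases h
      exact hi
  | @start v w ρ k y h _ ih =>
    intro hi
    apply ih
    rcases v with i | i
    · simp only [CU, lab] at h; split_ifs at h
    · fin_cases i <;> simp only [CU, lab] at h <;> cases h
      exact hi
  | @op v n f a t w ρ k y h _ ih =>
    intro hi
    apply ih
    rcases v with i | i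
    · simp only [CU, lab] at h
      split_ifs at h
      cases h
      simp only [Inv] at hi ⊢
      simp [sc, hi.1, hi.2]
    · fin_cases i <;> simp only [CU, lab] at h <;> cases h
      · simp only [Inv] at hi ⊢
        simp [hi.1, hi.2]
      · simp only [Inv] at hi ⊢
        obtain ⟨z, hz⟩ := Option.isSome_iff_exists.1 hi.2.2
        simp [U, ev, hi.1, hi.2.1, hz]
        exact evaln_sound hz
  | @test v n p a w w' ρ k y h _ ih =>
    intro hi
    apply ih
    rcases v with i | i
    · simp only [CU, lab] at h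
      split_ifs at h with c1
      cases h
      have := i.2
      simp only [Inv] at hi
      have e : ρ 1 = Encodable.encode c := by omega
      split_ifs with c2
      · refine ⟨hi.1, e, ?_⟩
        simpa [P, ev, hi.1, e] using c2
      · exact ⟨hi.1, e⟩
    · fin_cases i <;> simp only [CU, lab] at h <;> cases h

theorem loop (c : Code) (x y : ℕ) (hy : y ∈ c.eval x) : ∀ (d : ℕ) (ρ : ℕ → ℕ), ρ 0 = x →
    ρ 1 = Encodable.encode c → (evaln (ρ 2 + d) c x).isSome = true →
    ∃ k, (CU (Encodable.encode c)).Run (Sum.inl (Fin.last _)) ρ k y := by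
  have base : ∀ ρ : ℕ → ℕ, ρ 0 = x → ρ 1 = Encodable.encode c →
      (evaln (ρ 2) c x).isSome = true →
      ∃ k, (CU (Encodable.encode c)).Run (Sum.inl (Fin.last _)) ρ k y := by
    intro ρ h0 h1 h2
    obtain ⟨z, hz⟩ := Option.isSome_iff_exists.1 h2
    obtain rfl : z = y := Part.mem_unique (evaln_sound hz) hy
    refine ⟨_, .test (n := 3) (p := P) (a := ![2, 1, 0]) (w := Sum.inr 2) (w' := Sum.inr 1)
      (by simp [CU, lab]) (k := 2) ?_⟩
    rw [if_pos (by simpa [P, ev, h0, h1] using h2)]
    refine .op (n := 3) (f := U) (a := ![2, 1, 0]) (t := 3) (w := Sum.inr 3) rfl ?_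
    have := Flow.Run.halt (C := CU (Encodable.encode c)) (v := Sum.inr 3) (o := 3)
      (ρ := Function.update ρ 3 (U fun i => ρ (![2, 1, 0] i))) rfl
    convert this using 1
    simp [U, ev, h0, h1, hz]
  intro d
  induction d with
  | zero => exact base
  | succ d ih =>
    intro ρ h0 h1 h2
    by_cases h : (evaln (ρ 2) c x).isSome = true
    · exact base ρ h0 h1 h
    · obtain ⟨k, hk⟩ := ih (Function.update ρ 2 (sc fun i => ρ (![2] i))) (by simp [h0])
        (by simp [h1]) (by simpa [sc, add_assoc, add_comm 1 d] using h2)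
      refine ⟨_, .test (n := 3) (p := P) (a := ![2, 1, 0]) (w := Sum.inr 2) (w' := Sum.inr 1)
        (by simp [CU, lab]) (k := k + 1) ?_⟩
      rw [if_neg (by simpa [P, ev, h0, h1] using h)]
      exact .op (n := 1) (f := sc) (a := ![2]) (t := 2) (w := Sum.inl (Fin.last _)) rfl hk

theorem chain (c : Code) (x y : ℕ) (hy : y ∈ c.eval x) : ∀ (d : ℕ)
    (i : Fin (Encodable.encode c + 1)) (ρ : ℕ → ℕ), i.val + d = Encodable.encode c → ρ 0 = x →
    ρ 1 = i.val → ∃ k, (CU (Encodable.encode c)).Run (Sum.inl i) ρ k y := by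
  intro d
  induction d with
  | zero =>
    intro i ρ h h0 h1
    obtain rfl : i = Fin.last _ := Fin.ext h
    obtain ⟨k, hk⟩ := evaln_complete.1 hy
    refine loop c x y hy k ρ h0 h1 ?_
    rw [Option.isSome_iff_exists]
    exact ⟨y, evaln_mono (Nat.le_add_left _ _) hk⟩
  | succ d ih =>
    intro i ρ h h0 h1
    obtain ⟨k, hk⟩ := ih ⟨i.val + 1, by omega⟩ (Function.update ρ 1 (sc fun i => ρ (![1] i)))
      (by simp only; omega) (by simp [h0]) (by simp [sc, h1])
    exact ⟨_, .op (n := 1) (f := sc) (a := ![1]) (t := 1)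
      (by simp only [CU, lab]; rw [dif_pos (by omega)]) hk⟩

theorem univ : Universal F0 := by
  intro φ hφ
  obtain ⟨c, rfl⟩ := exists_code.1 hφ
  refine ⟨CU (Encodable.encode c), fun x y => ⟨fun ⟨k, h⟩ => sound c x h ⟨rfl, rfl⟩, fun hy => ?_⟩⟩
  obtain ⟨k, hk⟩ := chain c x y hy (Encodable.encode c) 0 (init x) (by simp) rfl rfl
  exact ⟨_, .start (w := Sum.inl 0) rfl hk⟩

def C1 : Flow F0 where
  N := Fin 3
  fin := inferInstance
  lab := ![.start 1, .op 1 sc ![0] 0 2, .halt 0]
  s := 0
  s_start := by intro v; fin_cases v <;> simp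
  op_mem := by
    intro v n f a t w h
    fin_cases v <;> cases h
    exact Or.inl rfl
  test_mem := by
    intro v n f a t w h
    fin_cases v <;> cases h

theorem C1_run (x : ℕ) : C1.Run C1.s (init x) 3 (x + 1) :=
  .start (w := (1 : Fin 3)) rfl (.op (n := 1) (f := sc) (a := ![0]) (t := 0) (w := (2 : Fin 3)) rfl
    (Flow.Run.halt (C := C1) (v := (2 : Fin 3)) (o := 0) rfl))

theorem det {F : Interp} {C : Flow F} {v ρ k y} (h : C.Run v ρ k y) :
    ∀ {k' y'}, C.Run v ρ k' y' → y = y' := by
  induction h with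
  | halt h => intro k' y' h'; cases h' <;> rename_i e <;> first | (rw [h] at e; cases e; rfl) | (rename_i e' ; rw [h] at e'; cases e')
  | start h _ ih =>
    intro k' y' h'
    cases h' with
    | halt e => rw [h] at e; cases e
    | start e r => rw [h] at e; cases e; exact ih r
    | op e r => rw [h] at e; cases e
    | test e r => rw [h] at e; cases e
  | op h _ ih =>
    intro k' y' h'
    cases h' with
    | halt e => rw [h] at e; cases e
    | start e r => rw [h] at e; cases e
    | op e r => rw [h] at e; cases e; exact ih r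
    | test e r => rw [h] at e; cases e
  | test h _ ih =>
    intro k' y' h'
    cases h' with
    | halt e => rw [h] at e; cases e
    | start e r => rw [h] at e; cases e
    | op e r => rw [h] at e; cases e
    | test e r => rw [h] at e; cases e; exact ih r

theorem one {F : Interp} {C : Flow F} {v ρ k y} (h : C.Run v ρ k y) :
    1 ≤ k ∧ (k ≤ 1 → ∃ o, C.lab v = .halt o ∧ y = ρ o) := by
  induction h with
  | halt h => exact ⟨le_rfl, fun _ => ⟨_, h, rfl⟩⟩
  | start _ _ ih => exact ⟨by omega, fun _ => by omega⟩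
  | op _ _ ih => exact ⟨by omega, fun _ => by omega⟩
  | test _ _ ih => exact ⟨by omega, fun _ => by omega⟩

def g (x : ℕ) : ℕ := if x = 0 then 2 else x + 1

theorem g_not : g ∉ Cls F0 fun _ => 3 := by
  rintro ⟨C, h1, h2⟩
  obtain ⟨x, ⟨k, y, hk, hr⟩, hx⟩ := (h2.and (Filter.eventually_cofinite_ne 0)).exists
  have hk : k ≤ 3 := hk
  obtain ⟨k', hr'⟩ := h1 x
  have hy : y = x + 1 := by rw [det hr hr', g, if_neg hx]
  have hin : ∀ o, init x o ≠ y := fun o => by unfold init; split_ifs <;> omega
  obtain ⟨w, hw⟩ := (C.s_start C.s).2 rfl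
  cases hr with
  | halt e => rw [hw] at e; cases e
  | op e r => rw [hw] at e; cases e
  | test e r => rw [hw] at e; cases e
  | start e r =>
    cases r with
    | halt e => exact hin _ rfl
    | start e r =>
      obtain ⟨o, -, h⟩ := (one r).2 (by omega)
      exact hin _ h.symm
    | test e r =>
      obtain ⟨o, -, h⟩ := (one r).2 (by omega)
      exact hin _ h.symm
    | @op _ n f a t w' _ _ _ e' r =>
      obtain ⟨o, ho, -⟩ := (one r).2 (by omega)
      obtain ⟨k0, h0⟩ := h1 0
      have h3 := det h0 (.start e (.op e' (.halt ho)))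
      have h4 : (fun i => init 0 (a i)) = fun _ => 0 := by funext i; simp [init]
      rw [h4] at h3
      have h5 : f (fun _ => 0) ≤ 1 := by
        rcases C.op_mem _ _ _ _ _ _ e' with h | h
        · cases h; simp [sc]
        · cases h; simp [U, ev, evaln]
      rw [Function.update_apply] at h3
      have : init 0 o = 0 := by simp [init]
      simp only [g, if_true] at h3
      split_ifs at h3 <;> omega

theorem result : ∃ F : Interp, F.fns.Finite ∧ F.prs.Finite ∧ Universal F ∧
    ∃ f g t : ℕ → ℕ, Computable f ∧ Computable g ∧ Computable t ∧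
      (∀ᶠ x in Filter.cofinite, f x = g x) ∧ f ∈ Cls F t ∧ g ∉ Cls F t := by
  refine ⟨F0, (Set.finite_singleton _).insert _, Set.finite_singleton _, univ, fun x => x + 1, g, fun _ => 3,
    Primrec.succ.to_comp, ?_, Computable.const 3, ?_, ?_, g_not⟩
  · exact (Primrec.ite (Primrec.eq.comp Primrec.id (Primrec.const 0)) (Primrec.const 2)
      Primrec.succ).to_comp
  · filter_upwards [Filter.eventually_cofinite_ne 0] with x hx
    rw [g, if_neg hx]
  · exact ⟨C1, fun x => ⟨3, C1_run x⟩,
      Filter.Eventually.of_forall fun x => ⟨3, _, le_rfl, C1_run x⟩⟩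

end Pool.Agent.Results.MP_091941_lc.NotInv
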